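import Pool.Agent.Helper6.CX.Goals

/-! Project CX, packet CONJ. -/

open Equiv

namespace Pool.Agent.Helper68.CX.CONJ

theorem thm : Pool.Agent.Helper6.CX.S_CONJ := by
  intro n κ _ x y A B hA hB hx hy hc
  choose iA hiA huA using hA
  have hne : ∀ r : Fin n, (B (iA r)).Nonempty := by
    intro r
    rw [← Finset.card_pos, ← hc, Finset.card_pos]
    exact ⟨r, hiA r⟩
  -- base points, depending on the index only
  have hbase : ∀ i : κ, (∃ r, r ∈ A i) → ∃ a ∈ A i, ∃ b, b ∈ B i := by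
    rintro i ⟨r, hr⟩
    refine ⟨r, hr, ?_⟩
    have h1 : (B i).Nonempty := by
      rw [← Finset.card_pos, ← hc, Finset.card_pos]
      exact ⟨r, hr⟩
    exact h1
  choose a ha b hb using hbase
  have hk : ∀ r : Fin n, ∃ k < (A (iA r)).card, (x ^ k) (a (iA r) ⟨r, hiA r⟩) = r := fun r =>
    (hx (iA r)).exists_pow_eq (ha _ _) (hiA r)
  choose k _ hkr using hk
  let φ : Fin n → Fin n := fun r => (y ^ k r) (b (iA r) ⟨r, hiA r⟩)
  have hpB : ∀ (i : κ) (c : Fin n) (m : ℕ), c ∈ B i → (y ^ m) c ∈ B i := by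
    intro i c m hc'
    have := ((hy i).1.perm_pow m).mapsTo
    exact this hc'
  have hpA : ∀ (i : κ) (c : Fin n) (m : ℕ), c ∈ A i → (x ^ m) c ∈ A i := by
    intro i c m hc'
    have := ((hx i).1.perm_pow m).mapsTo
    exact this hc'
  have hφB : ∀ r, φ r ∈ B (iA r) := fun r => hpB _ _ _ (hb _ _)
  have key : ∀ (i : κ) (h : ∃ r, r ∈ A i) (m : ℕ), φ ((x ^ m) (a i h)) = (y ^ m) (b i h) := by
    intro i h m
    obtain ⟨r, hr⟩ : ∃ r, r = (x ^ m) (a i h) := ⟨_, rfl⟩
    have hrA : r ∈ A i := by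
      rw [hr]
      exact hpA i _ m (ha i h)
    have hi : i = iA r := huA r i hrA
    subst hi
    rw [← hr]
    have h1 := hkr r
    have h2 : (x ^ k r) (a (iA r) h) = (x ^ m) (a (iA r) h) := h1.trans hr
    rw [(hx (iA r)).pow_apply_eq_pow_apply (ha _ _)] at h2
    have h3 := ((hy (iA r)).pow_apply_eq_pow_apply (hb (iA r) h) (m := k r) (n := m)).2
      (by rw [← hc]; exact h2)
    exact h3
  have hrep : ∀ r : Fin n, ∃ (i : κ) (h : ∃ r, r ∈ A i) (m : ℕ), r = (x ^ m) (a i h) := fun r =>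
    ⟨iA r, ⟨r, hiA r⟩, k r, (hkr r).symm⟩
  have hcomm : ∀ r, φ (x r) = y (φ r) := by
    intro r
    obtain ⟨i, h, m, rfl⟩ := hrep r
    have e1 : x ((x ^ m) (a i h)) = (x ^ (m + 1)) (a i h) := by
      rw [pow_succ', Perm.mul_apply]
    rw [e1, key, key, pow_succ', Perm.mul_apply]
  have hinj : Function.Injective φ := by
    intro r s hrs
    have h1 := hφB r
    have h2 := hφB s
    rw [hrs] at h1
    obtain ⟨j, hj, hju⟩ := hB (φ s)
    have h3 : iA r = iA s := (hju _ h1).trans (hju _ h2).symm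
    obtain ⟨i, h, m, hm⟩ := hrep r
    obtain ⟨i', h', m', hm'⟩ := hrep s
    have hi : i = iA r := huA r i (by rw [hm]; exact hpA i _ m (ha i h))
    have hi' : i' = iA s := huA s i' (by rw [hm']; exact hpA i' _ m' (ha i' h'))
    have hii : i = i' := by rw [hi, hi', h3]
    subst hii
    rw [hm, hm', key, key, (hy i).pow_apply_eq_pow_apply (hb i h)] at hrs
    rw [hm, hm', (hx i).pow_apply_eq_pow_apply (ha i h), hc]
    exact hrs
  let g : Perm (Fin n) := Equiv.ofBijective φ (Finite.injective_iff_bijective.1 hinj)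
  refine ⟨g, ?_⟩
  rw [mul_inv_eq_iff_eq_mul]
  ext r
  exact congrArg Fin.val (hcomm r)

end Pool.Agent.Helper68.CX.CONJ
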